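import Pool.Agent.H90.STK.Stmts

/-!
# Sticky families of lines: module E
-/

set_option autoImplicit false

namespace Pool.STK

open Finset Real MeasureTheory
open Pool.Agent.H49.Ent Pool.Agent.H32.Dense

namespace E

theorem good_mono {m : ℕ} {a R R' ε : ℝ} {J : ℕ} (h : Good m a R ε J) (hR : R ≤ R') :
    Good m a R' ε J := by
  intro Ω ζ _ p u d Z hp hd hs
  refine (h Ω ζ p u d Z hp hd hs).trans ?_
  have h1 : R * (J : ℝ) ≤ R' * J := mul_le_mul_of_nonneg_right hR (Nat.cast_nonneg J)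
  linarith

theorem goodEv_mono {m : ℕ} {a R R' : ℝ} (h : GoodEv m a R) (hR : R ≤ R') : GoodEv m a R' := by
  obtain ⟨ε, hε, J₀, hJ⟩ := h
  exact ⟨ε, hε, J₀, fun J hJJ => good_mono (hJ J hJJ) hR⟩

end E

/-- The entropy theorem from the improvement step. -/
theorem e_thm (hIMP : IMPStmt) (hTRV : TRVStmt) : EStmt := by
  intro m a R₀ ha hR₀
  by_contra hcon
  have hlow : ∀ R, GoodEv m a R → R₀ ≤ R := by
    intro R hR
    by_contra h
    exact hcon (E.goodEv_mono hR (not_le.1 h).le)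
  have hne : {R | GoodEv m a R}.Nonempty := ⟨_, hTRV m a (by linarith)⟩
  have hbdd : BddBelow {R | GoodEv m a R} := ⟨R₀, fun R hR => hlow R hR⟩
  have hpos : 0 < sInf {R | GoodEv m a R} :=
    lt_of_lt_of_le hR₀ (le_csInf hne fun R hR => hlow R hR)
  obtain ⟨R', hR', hgood⟩ := hIMP m a (sInf {R | GoodEv m a R}) ha hpos (by
    intro R' hR'
    obtain ⟨s, hs, hs'⟩ := exists_lt_of_csInf_lt hne hR'
    exact E.goodEv_mono hs hs'.le)
  exact absurd (csInf_le hbdd hgood) (not_le.2 hR')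

end Pool.STK
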